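import Mathlib

/-!
# The number of edges and the maximum forcing number
-/

set_option autoImplicit false

open Finset

namespace Pool.Agent.Results.MP_f5b231_co.EdgeCountForcing

variable {V : Type*}

/-- `M` is a perfect matching of `G`: a set of edges such that every vertex lies on exactly one of
them. -/
def IsPerfectMatching (G : SimpleGraph V) (M : Finset (Sym2 V)) : Prop :=
  (∀ e ∈ M, e ∈ G.edgeSet) ∧ ∀ v : V, ∃! e, e ∈ M ∧ v ∈ e

/-- `S` is a forcing set of the perfect matching `M`: `S ⊆ M` and `M` is the only perfect matching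
of `G` that contains `S`. -/
def IsForcingSet (G : SimpleGraph V) (M S : Finset (Sym2 V)) : Prop :=
  S ⊆ M ∧ ∀ M' : Finset (Sym2 V), IsPerfectMatching G M' → S ⊆ M' → M' = M

/-- The forcing number `f(G, M)`: the minimum size of a forcing set of `M`. -/
noncomputable def forcingNumber (G : SimpleGraph V) (M : Finset (Sym2 V)) : ℕ :=
  sInf {k | ∃ S : Finset (Sym2 V), IsForcingSet G M S ∧ S.card = k}

/-- The maximum forcing number `F(G)`: the maximum of `f(G, M)` over all perfect matchings. -/
noncomputable def maxForcing (G : SimpleGraph V) : ℕ :=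
  sSup {k | ∃ M : Finset (Sym2 V), IsPerfectMatching G M ∧ k = forcingNumber G M}

variable [Fintype V] [DecidableEq V]

omit [DecidableEq V] in
theorem exists_min_end (G : SimpleGraph V) [DecidableRel G.Adj] (e : Sym2 V) :
    ∃ z, z ∈ e ∧ ∀ w ∈ e, G.degree z ≤ G.degree w := by
  induction e using Sym2.ind with
  | _ x y =>
    rcases le_total (G.degree x) (G.degree y) with h | h
    · refine ⟨x, Sym2.mem_mk_left x y, ?_⟩
      intro w hw
      rcases Sym2.mem_iff.1 hw with rfl | rfl
      · exact le_refl _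
      · exact h
    · refine ⟨y, Sym2.mem_mk_right x y, ?_⟩
      intro w hw
      rcases Sym2.mem_iff.1 hw with rfl | rfl
      · exact h
      · exact le_refl _

/-- The greedy construction of a large set whose complement in `M` is forcing. -/
theorem greedy (G : SimpleGraph V) [DecidableRel G.Adj] (M : Finset (Sym2 V))
    (hM : IsPerfectMatching G M) (z : Sym2 V → V) (hz : ∀ e, z e ∈ e) (n : ℕ) :
    ∀ A : Finset (Sym2 V), A ⊆ M → A.card ≤ n →
      ∃ T : Finset (Sym2 V), T ⊆ A ∧ ∑ e ∈ A, (1 : ℝ) / G.degree (z e) ≤ T.card ∧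
        IsForcingSet G M (M \ T) := by
  induction n with
  | zero =>
    intro A _ hA
    have : A = ∅ := card_eq_zero.1 (Nat.le_zero.1 hA)
    subst this
    refine ⟨∅, Subset.refl _, by simp, ?_, ?_⟩
    · simp
    · intro M' hM' hsub
      rw [sdiff_empty] at hsub
      symm
      apply Subset.antisymm hsub
      intro e he
      obtain ⟨e', ⟨he', hze'⟩, -⟩ := hM.2 (z e)
      have h1 := (hM'.2 (z e)).unique ⟨he, hz e⟩ ⟨hsub he', hze'⟩
      rw [h1]
      exact he'
  | succ n ih =>
    intro A hAM hA
    rcases A.eq_empty_or_nonempty with rfl | hne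
    · exact ih ∅ (empty_subset _) (by simp)
    obtain ⟨e₀, he₀, hmin⟩ := exists_min_image A (fun e => G.degree (z e)) hne
    set A' := A.filter (fun e => e ≠ e₀ ∧ ∀ w ∈ e, ¬ G.Adj (z e₀) w) with hA'
    have hA'A : A' ⊆ A := filter_subset _ _
    have he₀A' : e₀ ∉ A' := by
      intro h
      exact (mem_filter.1 h).2.1 rfl
    have hcard : A'.card ≤ n := by
      have : A'.card < A.card := card_lt_card ⟨hA'A, fun h => he₀A' (h he₀)⟩
      omega
    obtain ⟨T', hT'A, hT'sum, hT'f⟩ := ih A' (hA'A.trans hAM) hcard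
    have he₀T' : e₀ ∉ T' := fun h => he₀A' (hT'A h)
    refine ⟨insert e₀ T', ?_, ?_, sdiff_subset, ?_⟩
    · exact insert_subset he₀ (hT'A.trans hA'A)
    · -- the sum
      have hsplit : ∑ e ∈ A, (1 : ℝ) / G.degree (z e) =
          ∑ e ∈ A', (1 : ℝ) / G.degree (z e) + ∑ e ∈ A \ A', (1 : ℝ) / G.degree (z e) := by
        rw [add_comm]
        exact (sum_sdiff hA'A).symm
      have hpos : 0 < G.degree (z e₀) := by
        rw [SimpleGraph.degree_pos_iff_exists_adj]
        have h1 := hM.1 e₀ (hAM he₀)
        have h2 := hz e₀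
        obtain ⟨w, hw⟩ := Sym2.mem_iff_exists.1 h2
        refine ⟨w, ?_⟩
        rw [hw, SimpleGraph.mem_edgeSet] at h1
        exact h1
      have hcnt : (A \ A').card ≤ G.degree (z e₀) := by
        -- choose a neighbour of `z e₀` in every element of `A \ A'`
        have hch : ∀ e, ∃ w, e ∈ A \ A' → (w ∈ e ∧ G.Adj (z e₀) w) := by
          intro e
          by_cases he : e ∈ A \ A'
          · rw [mem_sdiff] at he
            by_cases hee : e = e₀
            · subst hee
              have h1 := hM.1 e (hAM he₀)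
              obtain ⟨w, hw⟩ := Sym2.mem_iff_exists.1 (hz e)
              refine ⟨w, fun _ => ⟨?_, ?_⟩⟩
              · rw [hw]
                exact Sym2.mem_mk_right _ _
              · rw [hw, SimpleGraph.mem_edgeSet] at h1
                exact h1
            · have h2 : ¬ (e ≠ e₀ ∧ ∀ w ∈ e, ¬ G.Adj (z e₀) w) := by
                intro h
                exact he.2 (mem_filter.2 ⟨he.1, h⟩)
              push Not at h2
              obtain ⟨w, hw1, hw2⟩ := h2 hee
              exact ⟨w, fun _ => ⟨hw1, hw2⟩⟩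
          · exact ⟨z e₀, fun h => absurd h he⟩
        choose g hg using hch
        have hinj : Set.InjOn g ((A \ A' : Finset (Sym2 V)) : Set (Sym2 V)) := by
          intro a ha b hb hab
          have h1 := hg a (mem_coe.1 ha)
          have h2 := hg b (mem_coe.1 hb)
          rw [hab] at h1
          exact (hM.2 (g b)).unique ⟨hAM (mem_sdiff.1 (mem_coe.1 ha)).1, h1.1⟩
            ⟨hAM (mem_sdiff.1 (mem_coe.1 hb)).1, h2.1⟩
        rw [← card_image_of_injOn hinj, ← SimpleGraph.card_neighborFinset_eq_degree]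
        apply card_le_card
        intro w hw
        obtain ⟨e, he, rfl⟩ := mem_image.1 hw
        rw [SimpleGraph.mem_neighborFinset]
        exact (hg e he).2
      have hone : ∑ e ∈ A \ A', (1 : ℝ) / G.degree (z e) ≤ 1 := by
        have hpos' : (0 : ℝ) < G.degree (z e₀) := by exact_mod_cast hpos
        calc ∑ e ∈ A \ A', (1 : ℝ) / G.degree (z e)
            ≤ ∑ e ∈ A \ A', (1 : ℝ) / G.degree (z e₀) := by
              apply sum_le_sum
              intro e he
              apply one_div_le_one_div_of_le hpos'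
              exact_mod_cast hmin e (mem_sdiff.1 he).1
          _ = ((A \ A').card : ℝ) * (1 / G.degree (z e₀)) := by rw [sum_const, nsmul_eq_mul]
          _ ≤ (G.degree (z e₀) : ℝ) * (1 / G.degree (z e₀)) := by
              apply mul_le_mul_of_nonneg_right
              · exact_mod_cast hcnt
              · positivity
          _ = 1 := by field_simp
      rw [hsplit, card_insert_of_notMem he₀T']
      push_cast
      linarith
    · intro M' hM' hsub
      -- `e₀` belongs to `M'`
      have hkey : e₀ ∈ M' := by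
        obtain ⟨e₂, ⟨he₂, hze₂⟩, -⟩ := hM'.2 (z e₀)
        obtain ⟨w, hw⟩ := Sym2.mem_iff_exists.1 hze₂
        have hadj : G.Adj (z e₀) w := by
          have := hM'.1 e₂ he₂
          rw [hw, SimpleGraph.mem_edgeSet] at this
          exact this
        have hwe₂ : w ∈ e₂ := by
          rw [hw]
          exact Sym2.mem_mk_right _ _
        obtain ⟨e₁, ⟨he₁, hwe₁⟩, -⟩ := hM.2 w
        by_cases h1T : e₁ ∈ insert e₀ T'
        · rcases mem_insert.1 h1T with h | h
          · -- `w` lies on `e₀`
            subst h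
            have : e₂ = e₁ := by
              rw [hw]
              symm
              exact (Sym2.mem_and_mem_iff hadj.ne).1 ⟨hz _, hwe₁⟩
            rw [← this]
            exact he₂
          · exact absurd hadj ((mem_filter.1 (hT'A h)).2.2 w hwe₁)
        · exfalso
          have h1M' : e₁ ∈ M' := hsub (mem_sdiff.2 ⟨he₁, h1T⟩)
          have h12 : e₁ = e₂ := (hM'.2 w).unique ⟨h1M', hwe₁⟩ ⟨he₂, hwe₂⟩
          have hz1 : z e₀ ∈ e₁ := by rw [h12]; exact hze₂
          have : e₁ = e₀ := (hM.2 (z e₀)).unique ⟨he₁, hz1⟩ ⟨hAM he₀, hz e₀⟩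
          exact h1T (by rw [this]; exact mem_insert_self _ _)
      apply hT'f.2 M' hM'
      intro e he
      rw [mem_sdiff] at he
      by_cases hee : e = e₀
      · rw [hee]; exact hkey
      · apply hsub
        rw [mem_sdiff, mem_insert, not_or]
        exact ⟨he.1, hee, he.2⟩

theorem forcing_le (G : SimpleGraph V) [DecidableRel G.Adj] (n : ℕ) (hn : 1 ≤ n)
    (hV : Fintype.card V = 2 * n) (M : Finset (Sym2 V)) (hM : IsPerfectMatching G M) :
    forcingNumber G M < n ∧
      (n : ℝ) ^ 2 ≤ ((n : ℝ) - forcingNumber G M) * (G.edgeFinset.card : ℝ) := by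
  classical
  choose z hz hzmin using exists_min_end G
  choose μ hμ hμu using hM.2
  -- every edge of `M` is the edge of exactly two vertices
  have hfib : ∀ e ∈ M, (univ.filter fun v => μ v = e).card = 2 := by
    intro e he
    have hnd : ¬ e.IsDiag := G.not_isDiag_of_mem_edgeSet (hM.1 e he)
    have : (univ.filter fun v => μ v = e) = e.toFinset := by
      ext v
      rw [mem_filter, Sym2.mem_toFinset]
      constructor
      · rintro ⟨-, h⟩
        rw [← h]
        exact (hμ v).2
      · intro h
        exact ⟨mem_univ _, (hμu v e ⟨he, h⟩).symm⟩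
    rw [this]
    exact Sym2.card_toFinset_of_not_isDiag e hnd
  have hmaps : Set.MapsTo μ ((univ : Finset V) : Set V) (M : Set (Sym2 V)) :=
    fun v _ => (hμ v).1
  have hMcard : M.card = n := by
    have h1 := card_eq_sum_card_fiberwise hmaps
    rw [card_univ, hV, sum_congr rfl hfib, sum_const, smul_eq_mul] at h1
    omega
  -- the sum of the degrees
  have hdeg : ∑ e ∈ M, G.degree (z e) ≤ G.edgeFinset.card := by
    have h1 : ∑ v, G.degree v = ∑ e ∈ M, ∑ v ∈ univ.filter (fun v => μ v = e), G.degree v :=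
      (sum_fiberwise_of_maps_to (fun v hv => (hμ v).1) _).symm
    have h2 : ∑ e ∈ M, 2 * G.degree (z e) ≤
        ∑ e ∈ M, ∑ v ∈ univ.filter (fun v => μ v = e), G.degree v := by
      apply sum_le_sum
      intro e he
      calc 2 * G.degree (z e) = ∑ _v ∈ univ.filter (fun v => μ v = e), G.degree (z e) := by
            rw [sum_const, hfib e he, smul_eq_mul]
        _ ≤ _ := by
            apply sum_le_sum
            intro v hv
            apply hzmin
            rw [← (mem_filter.1 hv).2]
            exact (hμ v).2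
    rw [← h1, SimpleGraph.sum_degrees_eq_twice_card_edges, ← mul_sum] at h2
    omega
  obtain ⟨T, hTM, hTsum, hTf⟩ := greedy G M hM z hz M.card M (Subset.refl _) (le_refl _)
  have hfn : forcingNumber G M ≤ n - T.card := by
    apply Nat.sInf_le
    refine ⟨M \ T, hTf, ?_⟩
    rw [card_sdiff_of_subset hTM, hMcard]
  have hTn : T.card ≤ n := by
    rw [← hMcard]
    exact card_le_card hTM
  -- Cauchy-Schwarz
  have hdpos : ∀ e ∈ M, (0 : ℝ) < G.degree (z e) := by
    intro e he
    have h1 := hM.1 e he
    have : 0 < G.degree (z e) := by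
      rw [SimpleGraph.degree_pos_iff_exists_adj]
      obtain ⟨w, hw⟩ := Sym2.mem_iff_exists.1 (hz e)
      refine ⟨w, ?_⟩
      rw [hw, SimpleGraph.mem_edgeSet] at h1
      exact h1
    exact_mod_cast this
  have hCS : (n : ℝ) ^ 2 ≤ (∑ e ∈ M, (G.degree (z e) : ℝ)) * ∑ e ∈ M, (1 : ℝ) / G.degree (z e) := by
    have h := sum_mul_sq_le_sq_mul_sq M (fun e => Real.sqrt (G.degree (z e)))
      (fun e => 1 / Real.sqrt (G.degree (z e)))
    have h1 : ∑ e ∈ M, Real.sqrt (G.degree (z e)) * (1 / Real.sqrt (G.degree (z e))) = n := by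
      rw [← hMcard, card_eq_sum_ones]
      push_cast
      apply sum_congr rfl
      intro e he
      have := Real.sqrt_pos.2 (hdpos e he)
      field_simp
    have h2 : ∑ e ∈ M, Real.sqrt (G.degree (z e)) ^ 2 = ∑ e ∈ M, (G.degree (z e) : ℝ) := by
      apply sum_congr rfl
      intro e he
      exact Real.sq_sqrt (hdpos e he).le
    have h3 : ∑ e ∈ M, (1 / Real.sqrt (G.degree (z e))) ^ 2 =
        ∑ e ∈ M, (1 : ℝ) / G.degree (z e) := by
      apply sum_congr rfl
      intro e he
      rw [div_pow, one_pow, Real.sq_sqrt (hdpos e he).le]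
    rw [h1, h2, h3] at h
    exact h
  have hn0 : (0 : ℝ) < n := by exact_mod_cast hn
  have hdeg' : (∑ e ∈ M, (G.degree (z e) : ℝ)) ≤ G.edgeFinset.card := by exact_mod_cast hdeg
  have hpos2 : 0 ≤ ∑ e ∈ M, (1 : ℝ) / G.degree (z e) := by
    apply sum_nonneg
    intro e he
    exact (div_pos one_pos (hdpos e he)).le
  have hfin : (n : ℝ) ^ 2 ≤ (G.edgeFinset.card : ℝ) * T.card := by
    calc (n : ℝ) ^ 2 ≤ (∑ e ∈ M, (G.degree (z e) : ℝ)) * ∑ e ∈ M, (1 : ℝ) / G.degree (z e) := hCS
      _ ≤ (G.edgeFinset.card : ℝ) * ∑ e ∈ M, (1 : ℝ) / G.degree (z e) :=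
          mul_le_mul_of_nonneg_right hdeg' hpos2
      _ ≤ (G.edgeFinset.card : ℝ) * T.card := by
          apply mul_le_mul_of_nonneg_left hTsum
          positivity
  have hTpos : 0 < T.card := by
    rcases Nat.eq_zero_or_pos T.card with h | h
    · rw [h] at hfin
      have : (0 : ℝ) < (n : ℝ) ^ 2 := by positivity
      simp at hfin
      nlinarith
    · exact h
  refine ⟨by omega, ?_⟩
  have h5 : (T.card : ℝ) ≤ (n : ℝ) - forcingNumber G M := by
    have : T.card + forcingNumber G M ≤ n := by omega
    have h6 : ((T.card + forcingNumber G M : ℕ) : ℝ) ≤ (n : ℝ) := by exact_mod_cast this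
    push_cast at h6
    linarith
  calc (n : ℝ) ^ 2 ≤ (G.edgeFinset.card : ℝ) * T.card := hfin
    _ ≤ (G.edgeFinset.card : ℝ) * ((n : ℝ) - forcingNumber G M) :=
        mul_le_mul_of_nonneg_left h5 (by positivity)
    _ = _ := mul_comm _ _

/-- Every graph `G` on `2n` vertices (`n ≥ 1`) with a perfect matching satisfies `F(G) ≤ n - 1`
and `e(G) ≥ n² / (n - F(G))`. -/
theorem result (V : Type*) [Fintype V] [DecidableEq V] (G : SimpleGraph V) [DecidableRel G.Adj]
    (n : ℕ) (hn : 1 ≤ n) (hV : Fintype.card V = 2 * n)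
    (hG : ∃ M : Finset (Sym2 V), IsPerfectMatching G M) :
    maxForcing G < n ∧ (n : ℝ) ^ 2 / ((n : ℝ) - maxForcing G) ≤ (G.edgeFinset.card : ℝ) := by
  classical
  have hne : {k | ∃ M : Finset (Sym2 V), IsPerfectMatching G M ∧ k = forcingNumber G M}.Nonempty := by
    obtain ⟨M, hM⟩ := hG
    exact ⟨_, M, hM, rfl⟩
  have hbdd : BddAbove {k | ∃ M : Finset (Sym2 V), IsPerfectMatching G M ∧
      k = forcingNumber G M} := by
    refine ⟨n, ?_⟩
    rintro k ⟨M, hM, rfl⟩
    exact (forcing_le G n hn hV M hM).1.le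
  obtain ⟨M, hM, hk⟩ := Nat.sSup_mem hne hbdd
  have hk' : maxForcing G = forcingNumber G M := hk
  have h := forcing_le G n hn hV M hM
  rw [hk']
  refine ⟨h.1, ?_⟩
  have hpos : (0 : ℝ) < (n : ℝ) - forcingNumber G M := by
    have : ((forcingNumber G M : ℕ) : ℝ) < n := by exact_mod_cast h.1
    linarith
  rw [div_le_iff₀ hpos, mul_comm]
  exact h.2

end Pool.Agent.Results.MP_f5b231_co.EdgeCountForcing
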